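import Pool.Agent.H495R3.CyPoly

/-!
# Cyclic orderings of bipartite graphs avoiding alternating edges

It is NP-hard to decide whether a bipartite graph has a cyclic ordering without alternating-edge
obstruction.

Reduction: 3SAT -> a betweenness problem on a line -> constraints: the pair `{a, b}` does not
separate the pair `{z, c}` on the circle (`Cy.sat_to_solv`, `Cy.solv_to_sat`) -> bipartite graph
(`Cy.solv_to_good`, `Cy.good_to_solv`).  In the graph every element `x` of the constraint system
is represented by a cluster: the adjacent vertices `(0, x)`, `(1, x)`, one in each class, and one
copy for each occurrence of `x` in a constraint, adjacent to the vertex of the cluster in the other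
class.  The copies of the elements of the constraint `{a, b}`, `{z, c}` span the two edges between
the copies of `a`, `b` and between those of `z`, `c`; the copies of different constraints are
completely joined (first class of the earlier constraint with second class of the later one) and so
do not form obstructions.
-/

set_option autoImplicit false

namespace Pool.Agent.Results.MP_7399ce_lc.BipartiteNPHard

open Pool.Agent.NPC Pool.Agent.H495R3.Cy

/-- **It is NP-hard to decide whether a bipartite graph has a cyclic ordering without
alternating-edge obstruction.** -/
theorem result : NPHardP BipGoodOrdering := hardI_BipGoodOrdering.toNPHardP

end Pool.Agent.Results.MP_7399ce_lc.BipartiteNPHard
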